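import Pool.Agent.Helper28.TL.StV

/-!
# Project TL, low levels, module F1: level `4p`, `a` even (model `Pool/Agent/Helper29/LV/M_F1.lean`)
-/

set_option autoImplicit false

namespace Pool.Agent.Helper73.TLV

open Pool.Agent.Helper28.TL Pool.Agent.Helper28.WK Pool.Agent.Helper28.LV Pool.Agent.Helper4.TL Pool.Agent.Helper14.CV

private theorem u_ne {p : ℕ} (hp : (p : ℤ) ≠ 0) {x y : ℤ} (h : x ≠ 0 ∨ y ≠ 0) :
    x ≠ 0 ∨ (p : ℤ) * y ≠ 0 := by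
  rcases h with h | h
  · exact Or.inl h
  · exact Or.inr (mul_ne_zero hp h)

private theorem u_ne' {p : ℕ} (hp : (p : ℤ) ≠ 0) {x y : ℤ} (h : x ≠ 0 ∨ y ≠ 0) :
    (p : ℤ) * x ≠ 0 ∨ y ≠ 0 := by
  rcases h with h | h
  · exact Or.inl (mul_ne_zero hp h)
  · exact Or.inr h

/-- Step (0). -/
private theorem nc_all {p : ℕ} [Fact p.Prime] (hp : (p : ℤ) ≠ 0) (a : ℕ) (ψ : ℤ → ℤ → ℤ_[p])
    (hψ : Homog ψ)
    (hNc : ∀ c : ℤ, 2 * (p : ℤ) ∣ c → EqC (Nc a c (act p 0 0 1 ψ)) 0) (c : ℤ) (h2c : 2 ∣ c) :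
    EqC (Nc a c ψ) 0 := by
  obtain ⟨k, hk⟩ := hNc (p * c) (by
    rw [mul_comm 2 (p : ℤ)]
    exact mul_dvd_mul_left _ h2c)
  refine ⟨k, fun x y hxy => ?_⟩
  have h1 : Nc a (p * c) (act p 0 0 1 ψ) x (p * y) = 0 + k := hk x (p * y) (u_ne hp hxy)
  change Nc a c ψ x y = 0 + k
  rw [← h1]
  simp only [Nc, act]
  refine Finset.sum_congr rfl fun j _ => ?_
  congr 1
  have h2 : x ≠ 0 ∨ (j : ℤ) * c * x + y ≠ 0 := by
    by_cases hx : x = 0
    · right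
      rw [hx, mul_zero, zero_add]
      rcases hxy with h | h
      · exact absurd hx h
      · exact h
    · exact Or.inl hx
  rw [← hψ p x ((j : ℤ) * c * x + y) hp h2]
  congr 1 <;> ring

/-- Step (1). -/
private theorem s_inv {p : ℕ} [Fact p.Prime] (hp : (p : ℤ) ≠ 0) (ψ : ℤ → ℤ → ℤ_[p])
    (hψ : Homog ψ) (hS : EqC (act 0 (-1) (p : ℤ) 0 ψ) (act p 0 0 1 ψ)) :
    ∃ k : ℤ_[p], ∀ x y : ℤ, (x ≠ 0 ∨ y ≠ 0) → ψ (-y) x = ψ x y + k := by
  obtain ⟨k, hk⟩ := hS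
  refine ⟨k, fun x y hxy => ?_⟩
  have h1 := hk x (p * y) (u_ne hp hxy)
  have e1 : act 0 (-1) (p : ℤ) 0 ψ x (p * y) = ψ (-y) x := by
    have h3 : -y ≠ 0 ∨ x ≠ 0 := by
      rcases hxy with h | h
      · exact Or.inr h
      · exact Or.inl (neg_ne_zero.mpr h)
    rw [← hψ p (-y) x hp h3]
    simp only [act]
    congr 1 <;> ring
  have e2 : act p 0 0 1 ψ x (p * y) = ψ x y := by
    rw [← hψ p x y hp hxy]
    simp only [act]
    congr 1 <;> ring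
  rw [e1, e2] at h1
  exact h1

private theorem eps_S {α β γ δ : ℤ} (hd : α * δ - β * γ = 1) : eps (-γ) (-δ) α β = -eps α β γ δ := by
  have h1 := eps_mul (a := 0) (b := -1) (c := 1) (d := 0) (a' := α) (b' := β) (c' := γ) (d' := δ)
    (by norm_num) (by rw [hd]; norm_num)
  have h2 : eps 0 (-1) 1 0 = -1 := by decide
  rw [h2] at h1
  have e1 : 0 * α + -1 * γ = -γ := by ring
  have e2 : 0 * β + -1 * δ = -δ := by ring
  have e3 : 1 * α + 0 * γ = α := by ring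
  have e4 : 1 * β + 0 * δ = β := by ring
  rw [e1, e2, e3, e4] at h1
  rw [h1]; ring

private theorem eps_u {p : ℕ} (hp : ¬ (2 : ℤ) ∣ (p : ℤ)) (α β γ δ : ℤ) : eps α (p * β) γ δ = eps α β (p * γ) δ := by
  have h : ∀ x : ℤ, (2 : ℤ) ∣ p * x - x := by
    intro x
    have e : (p : ℤ) * x - x = (p - 1) * x := by ring
    rw [e]
    exact Dvd.dvd.mul_right (by omega) x
  refine eps_mod (by simp) (h β) ?_ (by simp)
  have := h γ
  have e : γ - p * γ = -(p * γ - γ) := by ring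
  rw [e]
  exact (dvd_neg).2 this

theorem hF1 : VF1 := by
  intro hMS hT hU hEG hE p hpf κ a Φ ψ hp2 hκ ha heqv hψ hsym hu hNb hNc hS
  have hpodd : ¬ (2 : ℤ) ∣ (p : ℤ) := by
    intro h
    have h1 : 2 ∣ p := by exact_mod_cast h
    exact hp2 ((Nat.prime_dvd_prime_iff_eq Nat.prime_two hpf.out).1 h1).symm
  have hp0 : (p : ℤ) ≠ 0 := by exact_mod_cast hpf.out.ne_zero
  have hpQ : (p : ℚ_[p]) ≠ 0 := by exact_mod_cast hpf.out.ne_zero
  have hNc' := nc_all hp0 a ψ hψ hNc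
  obtain ⟨k, hk⟩ := s_inv hp0 ψ hψ hS
  obtain ⟨k', hk'⟩ := hu
  have hκQ : (κ : ℚ_[p]) ≠ 0 := by exact_mod_cast hκ
  have hsym' : ∀ M : ℕ, 3 ≤ M → SymE p M (M + 1) (redP M ψ) := by
    intro M hM
    obtain ⟨g1, g2⟩ := hsym M hM
    refine ⟨g1, fun α β γ δ hd hb hc => g2 α β γ δ hd hb (dvd_trans ?_ hc)⟩
    exact pow_dvd_pow _ (Nat.le_succ M)
  obtain ⟨F, hF⟩ := hMS p hpf a ψ hp2 hψ hsym' hNb hNc'
  obtain ⟨E1, E2, E3, _⟩ := hEG p hpf a Φ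
  -- step (2)
  have step2 : ∀ v1 v2 w1 w2 : ℤ, (v1 ≠ 0 ∨ v2 ≠ 0) → (w1 ≠ 0 ∨ w2 ≠ 0) →
      ∀ α β γ δ : ℚ_[p], F v1 v2 w1 w2 (-γ) (-δ) α β = -F v1 v2 w1 w2 α β γ δ := by
    intro v1 v2 w1 w2 hv hw
    obtain ⟨r1, r2⟩ := hF v1 v2 w1 w2 hv hw
    obtain ⟨_, _, t3, _⟩ := hT p hpf a _ r1
    obtain ⟨_, _, _, t4', _⟩ := hT p hpf a _ t3
    have hR := t4' _ 1 1 r1
    have hz := hU p hpf a 0 _ hR (by
      intro α β γ δ hd _ _ _ _
      have hgw := ne_zero_of_det (by rw [hd]; exact one_ne_zero : α * δ - β * γ ≠ 0) hw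
      have hgv := ne_zero_of_det (by rw [hd]; exact one_ne_zero : α * δ - β * γ ≠ 0) hv
      have q1 := r2 α β γ δ hd
      have q2 := r2 (-γ) (-δ) α β (by linear_combination hd)
      have q3 := hk _ _ hgw
      have q4 := hk _ _ hgv
      have m1 : ψ (-γ * w1 + -δ * w2) (α * w1 + β * w2) - ψ (-γ * v1 + -δ * v2) (α * v1 + β * v2) =
          ψ (α * w1 + β * w2) (γ * w1 + δ * w2) - ψ (α * v1 + β * v2) (γ * v1 + δ * v2) := by
        have n1 : -γ * w1 + -δ * w2 = -(γ * w1 + δ * w2) := by ring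
        have n2 : -γ * v1 + -δ * v2 = -(γ * v1 + δ * v2) := by ring
        rw [n1, n2, q3, q4]
        ring
      rw [m1, eps_S hd] at q2
      have q5 : (((-eps α β γ δ : ℤ) : ℤ_[p]) * (ψ (α * w1 + β * w2) (γ * w1 + δ * w2) -
          ψ (α * v1 + β * v2) (γ * v1 + δ * v2)) : ℤ_[p]) = -(((eps α β γ δ : ℤ) : ℤ_[p]) *
          (ψ (α * w1 + β * w2) (γ * w1 + δ * w2) - ψ (α * v1 + β * v2) (γ * v1 + δ * v2))) := by
        push_cast
        ring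
      rw [q5, PadicInt.coe_neg, q1] at q2
      push_cast at q2
      rw [← q2]
      ring)
    intro α β γ δ
    have := hz α β γ δ
    linear_combination this
  -- step (3)
  have step3 : ∀ v1 v2 w1 w2 : ℤ, (v1 ≠ 0 ∨ v2 ≠ 0) → (w1 ≠ 0 ∨ w2 ≠ 0) →
      ∀ α β γ δ : ℚ_[p], (κ : ℚ_[p]) * EGf a Φ v1 v2 w1 w2 α β γ δ =
        F (p * v1) v2 (p * w1) w2 α (p * β) ((p : ℚ_[p])⁻¹ * γ) δ - F v1 v2 w1 w2 α β γ δ := by
    intro v1 v2 w1 w2 hv hw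
    obtain ⟨r1, r2⟩ := hF v1 v2 w1 w2 hv hw
    obtain ⟨s1, s2⟩ := hF (p * v1) v2 (p * w1) w2 (u_ne' hp0 hv) (u_ne' hp0 hw)
    obtain ⟨_, t2, _, _, _⟩ := hT p hpf a _ s1
    have t2' := t2 (p : ℚ_[p]) ((p : ℚ_[p])⁻¹)
    obtain ⟨_, _, _, t4, _⟩ := hT p hpf a _ t2'
    have t4' := t4 _ 1 (-1) r1
    obtain ⟨_, _, _, t5, _⟩ := hT p hpf a _ (E1 v1 v2 w1 w2)
    have hR := t5 _ (κ : ℚ_[p]) (-1) t4'
    have hz := hU p hpf a 1 _ hR (by
      intro α β γ δ hd _ _ hc _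
      rw [pow_one] at hc
      obtain ⟨γ', hγ⟩ := hc
      have hgw := ne_zero_of_det (by rw [hd]; exact one_ne_zero : α * δ - β * γ ≠ 0) hw
      have hgv := ne_zero_of_det (by rw [hd]; exact one_ne_zero : α * δ - β * γ ≠ 0) hv
      have q1 := r2 α β γ δ hd
      have q2 := s2 α (p * β) γ' δ (by rw [← hd, hγ]; ring)
      have q3 := hk' _ _ hgw
      have q4 := hk' _ _ hgv
      have q5 := hE p hpf a Φ (eps α β γ δ) (eps_cases α β γ δ) v1 v2 w1 w2 α β γ δ hv hw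
        (heqv α β γ δ hd ⟨γ', hγ⟩)
      have q6 : eps α (p * β) γ' δ = eps α β γ δ := by rw [hγ]; exact eps_u hpodd α β γ' δ
      rw [q6] at q2
      simp only [Pi.sub_apply, Pi.smul_apply, act, cp, zsmul_eq_mul] at q3 q4
      have m1 : ψ (α * (p * w1) + p * β * w2) (γ' * (p * w1) + δ * w2) =
          ψ (p * (α * w1 + β * w2) + 0 * (γ * w1 + δ * w2))
            (0 * (α * w1 + β * w2) + 1 * (γ * w1 + δ * w2)) := by
        rw [hγ]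
        congr 1 <;> ring
      have m2 : ψ (α * (p * v1) + p * β * v2) (γ' * (p * v1) + δ * v2) =
          ψ (p * (α * v1 + β * v2) + 0 * (γ * v1 + δ * v2))
            (0 * (α * v1 + β * v2) + 1 * (γ * v1 + δ * v2)) := by
        rw [hγ]
        congr 1 <;> ring
      have hγ2 : (p : ℚ_[p])⁻¹ * ((γ : ℤ) : ℚ_[p]) = ((γ' : ℤ) : ℚ_[p]) := by
        rw [hγ]
        push_cast
        rw [← mul_assoc, inv_mul_cancel₀ hpQ, one_mul]
      have m3 : (ψ (α * (p * w1) + p * β * w2) (γ' * (p * w1) + δ * w2) -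
          ψ (α * (p * v1) + p * β * v2) (γ' * (p * v1) + δ * v2)) -
          (ψ (α * w1 + β * w2) (γ * w1 + δ * w2) - ψ (α * v1 + β * v2) (γ * v1 + δ * v2)) =
          (κ : ℤ_[p]) * (Φ (α * w1 + β * w2) (γ * w1 + δ * w2) a -
            Φ (α * v1 + β * v2) (γ * v1 + δ * v2) a) := by
        rw [m1, m2]
        linear_combination q3 - q4
      have m3' : ((eps α β γ δ : ℤ) : ℤ_[p]) * (ψ (α * (p * w1) + p * β * w2) (γ' * (p * w1) + δ * w2) -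
          ψ (α * (p * v1) + p * β * v2) (γ' * (p * v1) + δ * v2)) -
          ((eps α β γ δ : ℤ) : ℤ_[p]) * (ψ (α * w1 + β * w2) (γ * w1 + δ * w2) -
            ψ (α * v1 + β * v2) (γ * v1 + δ * v2)) =
          (κ : ℤ_[p]) * (((eps α β γ δ : ℤ) : ℤ_[p]) * (Φ (α * w1 + β * w2) (γ * w1 + δ * w2) a -
            Φ (α * v1 + β * v2) (γ * v1 + δ * v2) a)) := by
        linear_combination ((eps α β γ δ : ℤ) : ℤ_[p]) * m3
      have m4 := congrArg (fun z : ℤ_[p] => (z : ℚ_[p])) m3'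
      rw [PadicInt.coe_sub, q2, q1, PadicInt.coe_mul, q5, PadicInt.coe_intCast] at m4
      rw [hγ2]
      push_cast at m4 ⊢
      linear_combination -m4)
    intro α β γ δ
    have := hz α β γ δ
    linear_combination this
  -- step (4)
  have step4 : ∀ v1 v2 w1 w2 : ℤ, (v1 ≠ 0 ∨ v2 ≠ 0) → (w1 ≠ 0 ∨ w2 ≠ 0) →
      Φ w1 w2 a = Φ v1 v2 a := by
    intro v1 v2 w1 w2 hv hw
    have hv' := u_ne' hp0 hv
    have hw' := u_ne' hp0 hw
    have q1 := step3 v1 v2 w1 w2 hv hw 1 0 0 1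
    have q2 := step3 v1 v2 w1 w2 hv hw (-0) (-1) 1 0
    have q3 := step2 v1 v2 w1 w2 hv hw 1 0 0 1
    obtain ⟨s1, s2⟩ := hF (p * v1) v2 (p * w1) w2 hv' hw'
    obtain ⟨_, _, _, _, t5⟩ := hT p hpf a _ s1
    have q4 := t5 (p : ℚ_[p]) ((p : ℚ_[p])⁻¹) 0 (-1) 1 0
    rw [mul_inv_cancel₀ hpQ, one_pow, one_mul] at q4
    have q5 := step2 (p * v1) v2 (p * w1) w2 hv' hw' 1 0 0 1
    have q6 := E2 v1 v2 w1 w2 1 0 0 1
    rw [ha.neg_one_pow] at q6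
    have q7 := E3 v1 v2 w1 w2
    have e1 : F (p * v1) v2 (p * w1) w2 1 (p * 0) ((p : ℚ_[p])⁻¹ * 0) 1 =
        F (p * v1) v2 (p * w1) w2 1 0 0 1 := by rw [mul_zero, mul_zero]
    have e2 : F (p * v1) v2 (p * w1) w2 (-0) (p * -1) ((p : ℚ_[p])⁻¹ * 1) 0 =
        F (p * v1) v2 (p * w1) w2 (p * 0) (p * -1) ((p : ℚ_[p])⁻¹ * 1) ((p : ℚ_[p])⁻¹ * 0) := by
      rw [mul_zero, mul_zero, neg_zero]
    have e3 : F (p * v1) v2 (p * w1) w2 0 (-1) 1 0 = F (p * v1) v2 (p * w1) w2 (-0) (-1) 1 0 := by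
      rw [neg_zero]
    have q8 : (2 * (κ : ℚ_[p])) * EGf a Φ v1 v2 w1 w2 1 0 0 1 = 0 := by
      rw [e1] at q1
      rw [e2, q4, e3, q5, q3, q6] at q2
      linear_combination q1 + q2
    have q9 : EGf a Φ v1 v2 w1 w2 1 0 0 1 = 0 := by
      rcases mul_eq_zero.1 q8 with h | h
      · exact absurd h (mul_ne_zero (by norm_num) hκQ)
      · exact h
    rw [q7] at q9
    have q10 : Φ w1 w2 a - Φ v1 v2 a = 0 := PadicInt.ext q9
    exact sub_eq_zero.1 q10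
  refine ⟨Φ 1 0 a, fun x y hxy => ?_⟩
  simp only [cp, Pi.zero_apply, zero_add]
  exact step4 1 0 x y (Or.inl one_ne_zero) hxy

end Pool.Agent.Helper73.TLV
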